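import Pool.Agent.H577.FD.Stm

set_option autoImplicit false

namespace Pool.Agent.H580.FD577

open Filter Finset Pool.Agent.H577.FD

/-- a product of distinct primes each dividing `n` divides `n` -/
theorem prod_dvd {T : Finset ℕ} {n : ℕ} (hp : ∀ p ∈ T, p.Prime) (hd : ∀ p ∈ T, p ∣ n) : ∏ p ∈ T, p ∣ n :=
  Finset.prod_primes_dvd n (fun p h => (hp p h).prime) hd

/-- `Q` is nonnegative -/
theorem Q_nonneg {g : ℕ} (hg : 0 < g) {Q : ℝ} (h : (g : ℝ) ≤ Q * ((∏ p ∈ g.primeFactors, p : ℕ) : ℝ)) : 0 ≤ Q := by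
  by_contra hQ
  push Not at hQ
  have h1 : (0 : ℝ) < g := by exact_mod_cast hg
  have h2 : (0 : ℝ) ≤ ((∏ p ∈ g.primeFactors, p : ℕ) : ℝ) := Nat.cast_nonneg _
  nlinarith [mul_nonneg (neg_nonneg.2 hQ.le) h2]

/-- the product of the primes of `g` outside `S`, and those in `S` -/
theorem rad_split (g : ℕ) (S : Finset ℕ) :
    (∏ p ∈ g.primeFactors, p) = (∏ p ∈ g.primeFactors.filter (· ∉ S), p) * ∏ p ∈ g.primeFactors.filter (· ∈ S), p := by
  rw [mul_comm]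
  exact (Finset.prod_filter_mul_prod_filter_not g.primeFactors (· ∈ S) (fun p => p)).symm

theorem gamma_le {X Y GX GY RX RY s γ : ℕ} {Q : ℝ} {S : Finset ℕ} (hX : 0 < X)
    (hSp : ∀ p ∈ S, p.Prime) (hs : s = ∏ p ∈ S, p) (hXe : X = GX * RX) (hYe : Y = GY * RY)
    (h1 : ∀ p : ℕ, p.Prime → p ∣ X → p ∉ S → p ∣ RX) (h2 : ∀ p : ℕ, p.Prime → p ∣ Y → p ∉ S → p ∣ RY)
    (hQ : (Nat.gcd X Y : ℝ) ≤ Q * ((∏ p ∈ (Nat.gcd X Y).primeFactors, p : ℕ) : ℝ))
    (g1 : γ ∣ GX) (g2 : γ ∣ GY) : (γ : ℝ) ≤ Q * s := by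
  set g := Nat.gcd X Y with hg
  have hg0 : 0 < g := Nat.gcd_pos_of_pos_left _ hX
  have hQ0 := Q_nonneg hg0 hQ
  set r := ∏ p ∈ g.primeFactors.filter (· ∉ S), p with hr
  have hr0 : 0 < r := by
    refine Finset.prod_pos fun p hp => ?_
    exact (Nat.prime_of_mem_primeFactors (Finset.mem_filter.1 hp).1).pos
  have hrX : r ∣ RX := by
    refine prod_dvd (fun p hp => Nat.prime_of_mem_primeFactors (Finset.mem_filter.1 hp).1) fun p hp => ?_
    obtain ⟨hp1, hp2⟩ := Finset.mem_filter.1 hp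
    exact h1 p (Nat.prime_of_mem_primeFactors hp1) ((Nat.dvd_of_mem_primeFactors hp1).trans (Nat.gcd_dvd_left _ _)) hp2
  have hrY : r ∣ RY := by
    refine prod_dvd (fun p hp => Nat.prime_of_mem_primeFactors (Finset.mem_filter.1 hp).1) fun p hp => ?_
    obtain ⟨hp1, hp2⟩ := Finset.mem_filter.1 hp
    exact h2 p (Nat.prime_of_mem_primeFactors hp1) ((Nat.dvd_of_mem_primeFactors hp1).trans (Nat.gcd_dvd_right _ _)) hp2
  have hd : γ * r ∣ g := Nat.dvd_gcd (hXe ▸ mul_dvd_mul g1 hrX) (hYe ▸ mul_dvd_mul g2 hrY)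
  have hle : γ * r ≤ g := Nat.le_of_dvd hg0 hd
  have hs0 : 0 < s := hs ▸ Finset.prod_pos fun p hp => (hSp p hp).pos
  have hSle : (∏ p ∈ g.primeFactors.filter (· ∈ S), p) ≤ s := by
    rw [hs]
    refine Nat.le_of_dvd (hs ▸ hs0) (Finset.prod_dvd_prod_of_subset _ _ _ fun p hp => (Finset.mem_filter.1 hp).2)
  have h3 : ((γ : ℝ) * r) ≤ (Q * s) * r := by
    calc ((γ : ℝ) * r) ≤ g := by exact_mod_cast hle
      _ ≤ Q * ((∏ p ∈ g.primeFactors, p : ℕ) : ℝ) := hQ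
      _ ≤ Q * ((r * s : ℕ) : ℝ) := by
          refine mul_le_mul_of_nonneg_left ?_ hQ0
          rw [rad_split g S]
          exact_mod_cast Nat.mul_le_mul_left _ hSle
      _ = (Q * s) * r := by push_cast; ring
  exact le_of_mul_le_mul_right h3 (by exact_mod_cast hr0)

theorem div : S_DIV := by
  intro A B C X Y Z GX GY GZ RX RY RZ s DX DY DZ L Q S hA hB hC hX hY hZ hSp hs e1 e2 hXe hYe hZe dX dY dZ h1 h2
    hQ hL bX bY bZ hW
  have hg0 : 0 < Nat.gcd X Y := Nat.gcd_pos_of_pos_left _ hX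
  have hQ0 := Q_nonneg hg0 hQ
  have hGX : 0 < GX := Nat.pos_of_mul_pos_right (hXe ▸ hX) |> fun h => h
  have hGY : 0 < GY := Nat.pos_of_mul_pos_right (hYe ▸ hY) |> fun h => h
  have hGZ : 0 < GZ := Nat.pos_of_mul_pos_right (hZe ▸ hZ) |> fun h => h
  set W : ℤ := (X : ℤ) * DY - Y * DX with hWd
  have e1' : (A : ℤ) * X + B * Y = C * Z := by exact_mod_cast e1
  have i1 : (C : ℤ) * (X * DZ - Z * DX) = B * W := by rw [hWd]; linear_combination (-(X : ℤ)) * e2 + DX * e1'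
  have i2 : (C : ℤ) * (Z * DY - Y * DZ) = A * W := by rw [hWd]; linear_combination (-DY) * e1' + (Y : ℤ) * e2
  have cX : (GX : ℤ) ∣ X := ⟨RX, by exact_mod_cast hXe⟩
  have cY : (GY : ℤ) ∣ Y := ⟨RY, by exact_mod_cast hYe⟩
  have cZ : (GZ : ℤ) ∣ Z := ⟨RZ, by exact_mod_cast hZe⟩
  have w1 : (GX : ℤ) * GY ∣ W := dvd_sub (mul_dvd_mul cX dY) (by rw [mul_comm (GX : ℤ)]; exact mul_dvd_mul cY dX)
  have w2 : (GX : ℤ) * GZ ∣ B * W := by
    rw [← i1]
    exact (dvd_sub (mul_dvd_mul cX dZ) (by rw [mul_comm (GX : ℤ)]; exact mul_dvd_mul cZ dX)).mul_left _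
  have w3 : (GY : ℤ) * GZ ∣ A * W := by
    rw [← i2]
    exact (dvd_sub (by rw [mul_comm (GY : ℤ)]; exact mul_dvd_mul cZ dY) (mul_dvd_mul cY dZ)).mul_left _
  set γ := Nat.gcd (Nat.gcd GX GY) GZ with hγ
  have hγ0 : 0 < γ := Nat.gcd_pos_of_pos_right _ hGZ
  have gX : γ ∣ GX := (Nat.gcd_dvd_left _ _).trans (Nat.gcd_dvd_left _ _)
  have gY : γ ∣ GY := (Nat.gcd_dvd_left _ _).trans (Nat.gcd_dvd_right _ _)
  -- the Bezout identity
  obtain ⟨a, b, c, habc⟩ : ∃ a b c : ℤ, (γ : ℤ) = a * GX + b * GY + c * GZ := by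
    have k1 := Nat.gcd_eq_gcd_ab (Nat.gcd GX GY) GZ
    have k2 := Nat.gcd_eq_gcd_ab GX GY
    refine ⟨Nat.gcdA GX GY * Nat.gcdA (Nat.gcd GX GY) GZ, Nat.gcdB GX GY * Nat.gcdA (Nat.gcd GX GY) GZ,
      Nat.gcdB (Nat.gcd GX GY) GZ, ?_⟩
    rw [hγ, k1, k2]; ring
  have key : (GX : ℤ) * GY * GZ ∣ A * B * W * γ := by
    rw [habc]
    have t1 : (GX : ℤ) * GY * GZ ∣ A * B * W * (a * GX) := by
      obtain ⟨q, hq⟩ := w3
      exact ⟨q * B * a, by linear_combination (B * a * GX : ℤ) * hq⟩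
    have t2 : (GX : ℤ) * GY * GZ ∣ A * B * W * (b * GY) := by
      obtain ⟨q, hq⟩ := w2
      exact ⟨q * A * b, by linear_combination (A * b * GY : ℤ) * hq⟩
    have t3 : (GX : ℤ) * GY * GZ ∣ A * B * W * (c * GZ) := by
      obtain ⟨q, hq⟩ := w1
      exact ⟨q * A * B * c, by linear_combination (A * B * c * GZ : ℤ) * hq⟩
    have := dvd_add (dvd_add t1 t2) t3
    rwa [← mul_add, ← mul_add] at this
  have hne : (A : ℤ) * B * W * γ ≠ 0 := by
    have a1 : (A : ℤ) ≠ 0 := by exact_mod_cast hA.ne'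
    have a2 : (B : ℤ) ≠ 0 := by exact_mod_cast hB.ne'
    have a3 : (γ : ℤ) ≠ 0 := by exact_mod_cast hγ0.ne'
    exact mul_ne_zero (mul_ne_zero (mul_ne_zero a1 a2) hW) a3
  have hle : (GX : ℤ) * GY * GZ ≤ |(A : ℤ) * B * W * γ| :=
    Int.le_of_dvd (abs_pos.2 hne) ((dvd_abs _ _).2 key)
  have hleR : (GX : ℝ) * GY * GZ ≤ A * B * |(W : ℝ)| * γ := by
    have : ((GX : ℤ) * GY * GZ : ℝ) ≤ ((|(A : ℤ) * B * W * γ| : ℤ) : ℝ) := by exact_mod_cast hle
    rw [Int.cast_abs] at this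
    push_cast at this
    rw [abs_mul, abs_mul, abs_mul, Nat.abs_cast, Nat.abs_cast, Nat.abs_cast] at this
    exact this
  have hγle : (γ : ℝ) ≤ Q * s := gamma_le hX hSp hs hXe hYe h1 h2 hQ gX gY
  have hWle : |(W : ℝ)| ≤ 2 * L * X * Y := by
    have hX' : (0 : ℝ) ≤ X := Nat.cast_nonneg _
    have hY' : (0 : ℝ) ≤ Y := Nat.cast_nonneg _
    have : (W : ℝ) = X * DY - Y * DX := by rw [hWd]; push_cast; ring
    rw [this]
    calc |(X : ℝ) * DY - Y * DX| ≤ |(X : ℝ) * DY| + |(Y : ℝ) * DX| := abs_sub _ _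
      _ = X * |(DY : ℝ)| + Y * |(DX : ℝ)| := by rw [abs_mul, abs_mul, abs_of_nonneg hX', abs_of_nonneg hY']
      _ ≤ X * (L * Y) + Y * (L * X) :=
          add_le_add (mul_le_mul_of_nonneg_left bY hX') (mul_le_mul_of_nonneg_left bX hY')
      _ = 2 * L * X * Y := by ring
  have hGXr : (0 : ℝ) < GX := by exact_mod_cast hGX
  have hGYr : (0 : ℝ) < GY := by exact_mod_cast hGY
  have hGZr : (0 : ℝ) < GZ := by exact_mod_cast hGZ
  have hAr : (0 : ℝ) ≤ A := Nat.cast_nonneg _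
  have hBr : (0 : ℝ) ≤ B := Nat.cast_nonneg _
  have hsr : (0 : ℝ) ≤ s := Nat.cast_nonneg _
  have hXr : (0 : ℝ) ≤ X := Nat.cast_nonneg _
  have hYr : (0 : ℝ) ≤ Y := Nat.cast_nonneg _
  have hZr : (0 : ℝ) ≤ Z := Nat.cast_nonneg _
  have hC1 : (1 : ℝ) ≤ C := by exact_mod_cast hC
  have step1 : (GX : ℝ) * GY * GZ ≤ A * B * (2 * L * X * Y) * (Q * s) := by
    refine hleR.trans ?_
    refine mul_le_mul (mul_le_mul_of_nonneg_left hWle (mul_nonneg hAr hBr)) hγle (Nat.cast_nonneg _) ?_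
    positivity
  have step2 : (Z : ℝ) * ((GX : ℝ) * GY * GZ) ≤ (2 * A * B * L * Q * s * (RX * RY * RZ)) * ((GX : ℝ) * GY * GZ) := by
    calc (Z : ℝ) * ((GX : ℝ) * GY * GZ) ≤ Z * (A * B * (2 * L * X * Y) * (Q * s)) :=
          mul_le_mul_of_nonneg_left step1 hZr
      _ = (2 * A * B * L * Q * s * (RX * RY * RZ)) * ((GX : ℝ) * GY * GZ) := by
          have x1 : (X : ℝ) = GX * RX := by exact_mod_cast hXe
          have x2 : (Y : ℝ) = GY * RY := by exact_mod_cast hYe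
          have x3 : (Z : ℝ) = GZ * RZ := by exact_mod_cast hZe
          rw [x1, x2, x3]; ring
  have step3 : (Z : ℝ) ≤ 2 * A * B * L * Q * s * (RX * RY * RZ) :=
    le_of_mul_le_mul_right step2 (by positivity)
  refine step3.trans ?_
  have hnn : 0 ≤ 2 * (A : ℝ) * B * L * Q * s * (RX * RY * RZ) := by positivity
  calc 2 * (A : ℝ) * B * L * Q * s * (RX * RY * RZ) ≤ (2 * (A : ℝ) * B * L * Q * s * (RX * RY * RZ)) * C :=
        le_mul_of_one_le_right hnn hC1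
    _ = 2 * A * B * C * L * Q * s * (RX * RY * RZ) := by ring

theorem prop : S_PROP := by
  intro a b X Y RX s Q S ha hb hab hX hY he hSp hs hRX h1 hQ
  have hg0 : 0 < Nat.gcd X Y := Nat.gcd_pos_of_pos_left _ hX
  have hQ0 := Q_nonneg hg0 hQ
  -- `X = a h`, `Y = b h`
  have hda : a ∣ X := hab.dvd_of_dvd_mul_left ⟨Y, he⟩
  obtain ⟨h, rfl⟩ := hda
  have hYh : Y = b * h := by
    have : a * Y = a * (b * h) := by rw [← he]; ring
    exact Nat.eq_of_mul_eq_mul_left ha this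
  subst hYh
  have hgcd : Nat.gcd (a * h) (b * h) = h := by
    rw [Nat.gcd_mul_right, hab, one_mul]
  rw [hgcd] at hQ hg0
  have hs0 : 0 < s := hs ▸ Finset.prod_pos fun p hp => (hSp p hp).pos
  have hrle : (∏ p ∈ h.primeFactors, p) ≤ s * RX := by
    refine Nat.le_of_dvd (Nat.mul_pos hs0 hRX) (prod_dvd (fun p hp => Nat.prime_of_mem_primeFactors hp) fun p hp => ?_)
    by_cases hpS : p ∈ S
    · exact (hs ▸ Finset.dvd_prod_of_mem _ hpS : p ∣ s).mul_right _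
    · exact (h1 p (Nat.prime_of_mem_primeFactors hp) ((Nat.dvd_of_mem_primeFactors hp).mul_left _) hpS).mul_left _
  have har : (0 : ℝ) ≤ a := Nat.cast_nonneg _
  calc ((a * h : ℕ) : ℝ) = a * h := by push_cast; ring
    _ ≤ a * (Q * ((∏ p ∈ h.primeFactors, p : ℕ) : ℝ)) := mul_le_mul_of_nonneg_left hQ har
    _ ≤ a * (Q * ((s * RX : ℕ) : ℝ)) :=
        mul_le_mul_of_nonneg_left (mul_le_mul_of_nonneg_left (by exact_mod_cast hrle) hQ0) har
    _ = a * Q * s * RX := by push_cast; ring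

end Pool.Agent.H580.FD577
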